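import Mathlib

namespace Pool.Agent.Results.MP_a76361_lc.No
open Finset

/-- The covering polyhedron `{x ≥ 0 : A x ≥ b}`. -/
def Poly {r d : ℕ} (A : Fin r → Fin d → ℝ) (b : Fin r → ℝ) : Set (Fin d → ℝ) :=
  {x | (∀ i, 0 ≤ x i) ∧ ∀ j, b j ≤ ∑ i, A j i * x i}

/-- `f` is a symmetric monotonic norm on `ℝ^d`. -/
structure SymNorm {d : ℕ} (f : (Fin d → ℝ) → ℝ) : Prop where
  definite : ∀ x, f x = 0 → x = 0
  add : ∀ x y, f (x + y) ≤ f x + f y
  smul : ∀ (a : ℝ) x, f (a • x) = |a| * f x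
  perm : ∀ (σ : Equiv.Perm (Fin d)) x, f (fun i => x (σ i)) = f x
  mono : ∀ x y, (∀ i, 0 ≤ x i) → (∀ i, x i ≤ y i) → f x ≤ f y

/-- `X` is an `α`-approximate portfolio for `P`. -/
def IsPortfolio {d : ℕ} (α : ℝ) (P : Set (Fin d → ℝ)) (X : Finset (Fin d → ℝ)) : Prop :=
  (∀ x ∈ X, x ∈ P) ∧ ∀ f, SymNorm f → ∃ x ∈ X, ∀ y ∈ P, f x ≤ α * f y

variable {d : ℕ} {f : (Fin d → ℝ) → ℝ}

theorem f0 (hf : SymNorm f) : f 0 = 0 := by simpa using hf.smul 0 0

theorem fnn (hf : SymNorm f) (x : Fin d → ℝ) (hx : ∀ i, 0 ≤ x i) : 0 ≤ f x :=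
  (f0 hf).symm.le.trans (hf.mono 0 x (fun _ => le_rfl) hx)

theorem fsum (hf : SymNorm f) {J : Type} (s : Finset J) (g : J → Fin d → ℝ) :
    f (∑ j ∈ s, g j) ≤ ∑ j ∈ s, f (g j) := by
  classical
  induction s using Finset.induction_on with
  | empty => simp [f0 hf]
  | insert a s ha ih => rw [sum_insert ha, sum_insert ha]; exact (hf.add _ _).trans (by linarith)

theorem fconst (hf : SymNorm f) (y : Fin d → ℝ) (hy : ∀ i, 0 ≤ y i) (i : Fin d) (m : ℝ)
    (hm : 0 ≤ m) (h : m ≤ y i) : f (fun _ => m) ≤ d * f y := by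
  have e : (fun _ => m : Fin d → ℝ) = ∑ j : Fin d, Pi.single j m := by
    funext k; simp [Finset.sum_apply, Pi.single_apply]
  rw [e]
  refine (fsum hf _ _).trans ?_
  have : ∀ j : Fin d, f (Pi.single j m) ≤ f y := by
    intro j
    rw [← hf.perm (Equiv.swap i j) y]
    apply hf.mono
    · intro k; rw [Pi.single_apply]; split_ifs <;> linarith
    · intro k; rw [Pi.single_apply]
      split_ifs with hk
      · rw [hk, Equiv.swap_apply_right]; exact h
      · exact hy _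
  refine (sum_le_sum fun j _ => this j).trans ?_
  simp

noncomputable def ds (x : Fin d → ℝ) (n : ℕ) : ℝ :=
  if h : n < d then x (Tuple.sort x (Fin.rev ⟨n, h⟩)) else 0

theorem ds_nn (x : Fin d → ℝ) (hx : ∀ i, 0 ≤ x i) (n : ℕ) : 0 ≤ ds x n := by
  unfold ds; split_ifs; exacts [hx _, le_rfl]

theorem ds_anti (x : Fin d → ℝ) (hx : ∀ i, 0 ≤ x i) : Antitone (ds x) := by
  intro a b hab
  by_cases hb : b < d
  · have ha : a < d := by omega
    simp only [ds, dif_pos ha, dif_pos hb]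
    exact Tuple.monotone_sort x (Fin.rev_le_rev.mpr (by simpa using hab))
  · simp only [ds, dif_neg hb]; exact ds_nn x hx a

theorem f_ds (hf : SymNorm f) (x : Fin d → ℝ) : f (fun k : Fin d => ds x k) = f x := by
  rw [← hf.perm (Fin.revPerm.trans (Tuple.sort x)) x]
  congr 1; funext k; simp [ds]

theorem f_div (hf : SymNorm f) (y : Fin d → ℝ) (hy : ∀ i, 0 ≤ y i) (B : ℕ) (hB : 0 < B) :
    f (fun k : Fin d => ds y (k / B)) ≤ B * f y := by
  have e : (fun k : Fin d => ds y (k / B)) =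
      ∑ t ∈ range B, fun k : Fin d => if k.val % B = t then ds y (k / B) else 0 := by
    funext k; simp [Finset.sum_apply, Nat.mod_lt _ hB]
  rw [e]
  refine (fsum hf _ _).trans ?_
  have : ∀ t, f (fun k : Fin d => if k.val % B = t then ds y (k / B) else 0) ≤ f y := by
    intro t
    obtain ⟨σ, hσ⟩ := Equiv.Perm.exists_extending_pair (α := {k : Fin d // k.val % B = t})
      (f := fun k => k.1)
      (g := fun k => (⟨k.1.val / B, lt_of_le_of_lt (Nat.div_le_self _ _) k.1.isLt⟩ : Fin d))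
      Subtype.val_injective (fun a b h => by
        have h1 : a.1.val / B = b.1.val / B := congrArg Fin.val h
        apply Subtype.ext; apply Fin.ext
        rw [← Nat.div_add_mod a.1.val B, ← Nat.div_add_mod b.1.val B, h1, a.2, b.2])
    rw [← f_ds hf y, ← hf.perm σ (fun k : Fin d => ds y k)]
    apply hf.mono
    · intro k; split_ifs; exacts [ds_nn y hy _, le_rfl]
    · intro k
      split_ifs with hk
      · rw [hσ ⟨k, hk⟩]
      · exact ds_nn y hy _
  refine (sum_le_sum fun j _ => this j).trans ?_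
  simp

noncomputable def lev (B : ℕ) (u v : ℝ) : ℕ := Nat.log B ⌊v / u⌋₊

theorem lev_le (B : ℕ) (hB : 1 < B) (u v v' : ℝ) (hu : 0 < u) (hv' : 0 ≤ v')
    (h : lev B u v = lev B u v') : v ≤ B * v' + B * u := by
  have h1 : ⌊v / u⌋₊ + 1 ≤ B ^ (lev B u v + 1) := Nat.lt_pow_succ_log_self hB _
  have h2 : v / u < (⌊v / u⌋₊ : ℝ) + 1 := Nat.lt_floor_add_one _
  have h3 : (⌊v' / u⌋₊ : ℝ) ≤ v' / u := Nat.floor_le (by positivity)
  have h4 : B ^ lev B u v' ≤ ⌊v' / u⌋₊ + 1 := by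
    by_cases h0 : ⌊v' / u⌋₊ = 0
    · simp [lev, h0]
    · exact (Nat.pow_log_le_self B h0).trans (Nat.le_succ _)
  rw [h, pow_succ] at h1
  have h5 : ((⌊v / u⌋₊ : ℝ) + 1) ≤ ((⌊v' / u⌋₊ : ℝ) + 1) * B := by
    exact_mod_cast h1.trans (Nat.mul_le_mul_right _ h4)
  have hB' : (0 : ℝ) ≤ B := by positivity
  have h6 : v / u ≤ (v' / u + 1) * B := by nlinarith
  rw [div_le_iff₀ hu] at h6
  have e : (v' / u + 1) * B * u = B * v' + B * u := by field_simp
  linarith

theorem close (hf : SymNorm f) (B : ℕ) (hB : 1 < B) (m : ℝ) (hm : 0 < m) (x y : Fin d → ℝ)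
    (hx : ∀ i, 0 ≤ x i) (hy : ∀ i, 0 ≤ y i) (i : Fin d) (hi : m ≤ y i)
    (h : ∀ j ≤ Nat.log B d, lev B (m / d) (ds x (B ^ j - 1)) = lev B (m / d) (ds y (B ^ j - 1))) :
    f x ≤ (B * B + B) * f y := by
  have hd : (0 : ℝ) < d := by exact_mod_cast i.pos
  have hB' : (0 : ℝ) ≤ B := by positivity
  have h1 : f x ≤ f ((B : ℝ) • (fun k : Fin d => ds y (k / B)) + ((B : ℝ) / d) • fun _ => m) := by
    rw [← f_ds hf x]
    refine hf.mono _ _ (fun k => ds_nn x hx k) fun k => ?_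
    have a1 : B ^ Nat.log B (k + 1) ≤ k + 1 := Nat.pow_log_le_self B (by omega)
    have a2 : k + 1 < B ^ (Nat.log B (k + 1) + 1) := Nat.lt_pow_succ_log_self hB _
    have a3 := lev_le B hB (m / d) _ _ (by positivity) (ds_nn y hy _)
      (h (Nat.log B (k + 1)) (Nat.log_mono_right k.isLt))
    have a4 := ds_anti x hx (show B ^ Nat.log B (k + 1) - 1 ≤ k by omega)
    have a5 : k.val / B < B ^ Nat.log B (k + 1) := by
      rw [Nat.div_lt_iff_lt_mul (by omega), ← pow_succ]; omega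
    have a6 := ds_anti y hy (show k.val / B ≤ B ^ Nat.log B (k + 1) - 1 by omega)
    have a7 := mul_le_mul_of_nonneg_left a6 hB'
    have e : (B : ℝ) / d * m = B * (m / d) := by ring
    simp only [Pi.add_apply, Pi.smul_apply, smul_eq_mul]
    linarith
  have h2 := h1.trans (hf.add _ _)
  rw [hf.smul, hf.smul, abs_of_nonneg hB', abs_of_nonneg (by positivity)] at h2
  have h3 := mul_le_mul_of_nonneg_left (f_div hf y hy B (by omega)) hB'
  have h4 := mul_le_mul_of_nonneg_left (fconst hf y hy i m hm.le hi)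
    (show 0 ≤ (B : ℝ) / d by positivity)
  have e : (B : ℝ) / d * (d * f y) = B * f y := by field_simp
  linarith

noncomputable def cf (B : ℕ) (u : ℝ) (y : Fin d → ℝ) (j : Fin (Nat.log B d + 1)) : ℕ :=
  lev B u (ds y (B ^ (Nat.log B d - j) - 1)) + j

theorem cf_mono (B : ℕ) (hB : 1 < B) (u : ℝ) (hu : 0 < u) (y : Fin d → ℝ) (hy : ∀ i, 0 ≤ y i) :
    StrictMono (cf B u y) := by
  intro a b hab
  have h0 : a.val < b.val := hab
  have h1 : B ^ (Nat.log B d - b) ≤ B ^ (Nat.log B d - a) :=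
    Nat.pow_le_pow_right (by omega) (by omega)
  have h2 := ds_anti y hy (Nat.sub_le_sub_right h1 1)
  have h3 : lev B u (ds y (B ^ (Nat.log B d - a) - 1)) ≤
      lev B u (ds y (B ^ (Nat.log B d - b) - 1)) :=
    Nat.log_mono_right (Nat.floor_le_floor (div_le_div_of_nonneg_right h2 hu.le))
  unfold cf; omega

theorem core (B : ℕ) (hB : 1 < B) (hd : 0 < d) (P : Set (Fin d → ℝ)) (hP : ∀ y ∈ P, ∀ i, 0 ≤ y i)
    (m : ℝ) (hm : 0 < m) (hlo : ∀ y ∈ P, ∃ i, m ≤ y i) (y0 : Fin d → ℝ) (hy0 : y0 ∈ P)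
    (hhi : ∀ i, y0 i ≤ 2 * m) :
    ∃ X : Finset (Fin d → ℝ), X.card ≤ 2 ^ (Nat.log B (2 * d * d) + Nat.log B d + 1) + 1 ∧
      IsPortfolio (B * B + B) P X := by
  classical
  have hd' : (0 : ℝ) < d := by exact_mod_cast hd
  have hex : ∀ S : Finset ℕ, ∃ x ∈ P, ∀ y ∈ P, univ.image (cf B (m / d) y) = S →
      univ.image (cf B (m / d) x) = S := by
    intro S
    by_cases h : ∃ y ∈ P, univ.image (cf B (m / d) y) = S
    · obtain ⟨y, hy, h⟩ := h
      exact ⟨y, hy, fun _ _ _ => h⟩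
    · exact ⟨y0, hy0, fun y hy h' => absurd ⟨y, hy, h'⟩ h⟩
  choose rep hrep hrep' using hex
  let X := insert y0 ((range (Nat.log B (2 * d * d) + Nat.log B d + 1)).powerset.image rep)
  have hX : ∀ x ∈ X, x ∈ P := by
    intro x hx
    rcases mem_insert.mp hx with rfl | hx
    · exact hy0
    · obtain ⟨S, -, rfl⟩ := mem_image.mp hx
      exact hrep S
  refine ⟨X, (card_insert_le _ _).trans (by
    simpa using (card_image_le (s := (range (Nat.log B (2 * d * d) + Nat.log B d + 1)).powerset)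
      (f := rep))), hX, fun f hf => ?_⟩
  obtain ⟨x, hx, hmin⟩ := exists_min_image X f ⟨y0, mem_insert_self _ _⟩
  refine ⟨x, hx, fun y hy => ?_⟩
  have hB' : (1 : ℝ) ≤ B := by exact_mod_cast hB.le
  by_cases hbig : ∃ i, 2 * m * d ≤ y i
  · obtain ⟨i, hi⟩ := hbig
    have h1 := fconst hf y (hP y hy) i (2 * m * d) (by positivity) hi
    have h2 := hf.smul d (fun _ => 2 * m)
    have e : (d : ℝ) • (fun _ : Fin d => 2 * m) = fun _ => 2 * m * d := by
      funext k; simp [mul_comm]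
    rw [e, abs_of_pos hd'] at h2
    rw [h2] at h1
    have h3 := le_of_mul_le_mul_left h1 hd'
    have h4 := hf.mono y0 (fun _ => 2 * m) (hP y0 hy0) hhi
    have h5 := hmin y0 (mem_insert_self _ _)
    have h6 := fnn hf y (hP y hy)
    nlinarith
  · push Not at hbig
    have hS : univ.image (cf B (m / d) y) ∈
        (range (Nat.log B (2 * d * d) + Nat.log B d + 1)).powerset := by
      rw [mem_powerset]
      intro a ha
      obtain ⟨j, -, rfl⟩ := mem_image.mp ha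
      have h1 : ∀ n, ds y n ≤ 2 * m * d := fun n => by
        unfold ds; split_ifs; exacts [(hbig _).le, by positivity]
      have h2 : lev B (m / d) (ds y (B ^ (Nat.log B d - j) - 1)) ≤ Nat.log B (2 * d * d) := by
        apply Nat.log_mono_right
        apply Nat.floor_le_of_le
        rw [div_le_iff₀ (by positivity)]
        refine (h1 _).trans (le_of_eq ?_)
        push_cast; field_simp
      have := j.isLt
      rw [mem_range]; unfold cf; omega
    have h1 := hrep' _ y hy rfl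
    have h2 : cf B (m / d) (rep (univ.image (cf B (m / d) y))) = cf B (m / d) y := by
      rw [← StrictMono.range_inj (cf_mono B hB _ (by positivity) _ (hP _ (hrep _)))
        (cf_mono B hB _ (by positivity) _ (hP _ hy))]
      have := congrArg (fun s : Finset ℕ => (s : Set ℕ)) h1
      simpa using this
    obtain ⟨i, hi⟩ := hlo y hy
    refine (hmin _ (mem_insert_of_mem (mem_image_of_mem rep hS))).trans
      (close hf B hB m hm _ y (hP _ (hrep _)) (hP y hy) i hi fun j hj => ?_)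
    have h3 := congrFun h2 ⟨Nat.log B d - j, by omega⟩
    have e : Nat.log B d - (Nat.log B d - j) = j := by omega
    simpa [cf, e] using h3

theorem poly (B : ℕ) (hB : 1 < B) (hd : 0 < d) {r : ℕ} (A : Fin r → Fin d → ℝ) (b : Fin r → ℝ)
    (hA : ∀ j i, 0 ≤ A j i) (hne : (Poly A b).Nonempty) :
    ∃ X : Finset (Fin d → ℝ), X.card ≤ 2 ^ (Nat.log B (2 * d * d) + Nat.log B d + 1) + 1 ∧
      IsPortfolio (B * B + B) (Poly A b) X := by
  by_cases h0 : (0 : Fin d → ℝ) ∈ Poly A b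
  · refine ⟨{0}, by simp, by simpa using h0, fun f hf => ⟨0, by simp, fun y hy => ?_⟩⟩
    rw [f0 hf]
    exact mul_nonneg (by positivity) (fnn hf y hy.1)
  have hj : ∃ j, 0 < b j := by
    by_contra hc
    push Not at hc
    exact h0 ⟨fun _ => le_rfl, fun j => by simpa using hc j⟩
  obtain ⟨j, hj⟩ := hj
  have hn : ∀ y ∈ Poly A b, b j / (∑ i, A j i + 1) ≤ ‖y‖ := by
    intro y hy
    have h1 : ∑ i, A j i * y i ≤ (∑ i, A j i) * ‖y‖ := by
      rw [sum_mul]
      exact sum_le_sum fun i _ => mul_le_mul_of_nonneg_left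
        ((le_abs_self _).trans (norm_le_pi_norm y i)) (hA j i)
    have h2 : 0 ≤ ∑ i, A j i := sum_nonneg fun i _ => hA j i
    rw [div_le_iff₀ (by linarith)]
    have := hy.2 j
    have := norm_nonneg y
    nlinarith
  have h2 : 0 ≤ ∑ i, A j i := sum_nonneg fun i _ => hA j i
  have hbd : BddBelow ((fun y => ‖y‖) '' Poly A b) := ⟨0, by rintro _ ⟨y, -, rfl⟩; positivity⟩
  have hm : 0 < sInf ((fun y => ‖y‖) '' Poly A b) :=
    lt_of_lt_of_le (show 0 < b j / (∑ i, A j i + 1) by positivity) (le_csInf (hne.image _) (by rintro _ ⟨y, hy, rfl⟩; exact hn y hy))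
  obtain ⟨_, ⟨y0, hy0, rfl⟩, hlt⟩ := exists_lt_of_csInf_lt (hne.image fun y => ‖y‖)
    (show sInf ((fun y => ‖y‖) '' Poly A b) < 2 * sInf ((fun y => ‖y‖) '' Poly A b) by linarith)
  refine core B hB hd _ (fun y hy => hy.1) _ hm (fun y hy => ?_) y0 hy0 fun i =>
    ((le_abs_self _).trans (norm_le_pi_norm y0 i)).trans hlt.le
  by_contra hc
  push Not at hc
  have h3 := (pi_norm_lt_iff hm).mpr fun i => (by
    rw [Real.norm_eq_abs, abs_of_nonneg (hy.1 i)]; exact hc i : ‖y i‖ < _)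
  exact absurd (csInf_le hbd ⟨y, hy, rfl⟩) (not_le.mpr h3)

theorem result (c δ : ℝ) (hc : 0 < c) (hδ : 0 < δ) :
    ∃ d₀ : ℕ, ∀ d ≥ d₀, ∀ (r : ℕ) (A : Fin r → Fin d → ℝ) (b : Fin r → ℝ),
      (∀ j i, 0 ≤ A j i) → (∀ j, 0 ≤ b j) → (Poly A b).Nonempty →
      ∃ X : Finset (Fin d → ℝ), IsPortfolio (c * Real.log d) (Poly A b) X ∧
        (X.card : ℝ) < (d : ℝ) ^ δ := by
  obtain ⟨s, hs⟩ := exists_nat_ge (8 / δ)
  have hs0 : (0 : ℝ) < s := lt_of_lt_of_le (by positivity) hs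
  have hs1 : s ≠ 0 := by rintro rfl; simp at hs0
  have hB : 1 < 2 ^ s := Nat.one_lt_two_pow hs1
  have e1 := ((Real.tendsto_log_atTop.comp tendsto_natCast_atTop_atTop).const_mul_atTop hc).eventually
    (Filter.eventually_ge_atTop (((2 ^ s : ℕ) : ℝ) * (2 ^ s : ℕ) + (2 ^ s : ℕ)))
  have e2 := ((tendsto_rpow_atTop (half_pos hδ)).comp tendsto_natCast_atTop_atTop).eventually
    (Filter.eventually_gt_atTop 3)
  obtain ⟨d₀, hd₀⟩ := Filter.eventually_atTop.mp ((e1.and e2).and (Filter.eventually_ge_atTop 2))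
  refine ⟨d₀, fun d hd r A b hA _ hne => ?_⟩
  obtain ⟨⟨h1, h2⟩, h3⟩ := hd₀ d hd
  simp only [Function.comp] at h1 h2
  obtain ⟨X, hX, hP⟩ := poly (2 ^ s) hB (by omega) A b hA hne
  refine ⟨X, ⟨hP.1, fun f hf => ?_⟩, ?_⟩
  · obtain ⟨x, hx, h⟩ := hP.2 f hf
    exact ⟨x, hx, fun y hy => (h y hy).trans (mul_le_mul_of_nonneg_right h1 (fnn hf y hy.1))⟩
  · have a1 : (2 ^ s) ^ Nat.log (2 ^ s) d ≤ d := Nat.pow_log_le_self _ (by omega)
    have a2 : (2 ^ s) ^ Nat.log (2 ^ s) (2 * d * d) ≤ 2 * d * d :=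
      Nat.pow_log_le_self _ (by positivity)
    have a3 : (2 ^ (Nat.log (2 ^ s) (2 * d * d) + Nat.log (2 ^ s) d)) ^ s ≤ d ^ 4 := by
      rw [← pow_mul, mul_comm _ s, pow_mul, pow_add]
      refine (Nat.mul_le_mul a2 a1).trans ?_
      have : d ^ 4 = d * d * d * d := by ring
      rw [this]
      exact Nat.mul_le_mul_right _ (Nat.mul_le_mul_right _ (Nat.mul_le_mul_right _ h3))
    generalize Nat.log (2 ^ s) (2 * d * d) + Nat.log (2 ^ s) d = e at a3 hX
    have d1 : (1 : ℝ) ≤ d := by exact_mod_cast (by omega : 1 ≤ d)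
    have a4 : ((2 : ℝ) ^ e) ^ s ≤ ((d : ℝ) ^ (δ / 2)) ^ s := by
      rw [← Real.rpow_natCast ((d : ℝ) ^ (δ / 2)), ← Real.rpow_mul (by linarith)]
      have b1 : ((2 : ℝ) ^ e) ^ s ≤ (d : ℝ) ^ ((4 : ℕ) : ℝ) := by
        rw [Real.rpow_natCast]; exact_mod_cast a3
      refine b1.trans (Real.rpow_le_rpow_of_exponent_le d1 ?_)
      rw [div_le_iff₀ hδ] at hs
      push_cast; linarith
    have a5 := le_of_pow_le_pow_left₀ hs1 (by positivity) a4
    have a6 : (X.card : ℝ) ≤ 2 ^ e * 2 + 1 := by rw [← pow_succ]; exact_mod_cast hX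
    have a7 : (d : ℝ) ^ δ = (d : ℝ) ^ (δ / 2) * (d : ℝ) ^ (δ / 2) := by
      rw [← Real.rpow_add (by linarith)]; congr 1; ring
    rw [a7]
    nlinarith

end Pool.Agent.Results.MP_a76361_lc.No
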